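import Pool.Agent.V11288.QU.EC

/-!
# Elliptic curves over number fields: zeros and poles of `L(E/K, s)` and the partial Euler products

Let `E : y² = x³ + a x + b` be an elliptic curve over a number field `K`, `a, b ∈ 𝓞_K`.  It is not known in
general that `L(E/K, s)` is entire.  If `K` is totally real, or a CM field, it is known (potential
automorphy and Brauer induction) that `L(E/K, s) = G₁(s)/G₂(s)` with `G₁`, `G₂` products of automorphic
`L`-functions, which are entire, of polynomial growth in vertical strips, and bounded from below far to the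
right.  So the poles of `L(E/K, s)` are the open question.  This is the situation considered here: `K` is any
number field and `L(E/K, s)` (the product over the primes `v` not dividing `6(4a³ + 27b²)`) is, far to the
right, a quotient `G₁/G₂` of two functions holomorphic and of polynomial growth for `Re s > σ - η`.

For the good primes `v` and `k ≥ 1` let `a(v, k) = N v^k + 1 - #E(𝔽_{v^k})`, and for real `t` and `Y > 1`

`log |P_{σ+it}(Y)| = ∑_{N v^k ≤ Y} Re (a(v, k) / (k N v^{k(σ + it)}))`,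

the logarithm of the absolute value of the partial Euler product at `σ + it` over all finite fields with at
most `Y` elements.

It is shown for all real `σ ≥ 1`:

1. Let `r(t)`, `A(t) > 0` be arbitrary real functions.  `L(E/K, s)` has neither zeros nor poles with
   `Re s > σ`, and for every real `t` its order at `σ + it` is `r(t)` and the absolute value of the leading
   coefficient is `A(t)`, IF AND ONLY IF for every `t` the integral
   `∫_1^∞ (log |P_{σ+it}(Y)| + r(t) (log log Y + γ) - log A(t))² dY/Y` is finite.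

2. If the integral at `t` is finite (for `r`, `A`), it is equal to
   `(1/π) ∫_{-∞}^∞ (½ log |L(E/K, σ + i(t+u))| + ½ log |L(E/K, σ + i(t-u))| - r log |u| - log A)² du/u²`.

3. `L(E/K, s)` is holomorphic on the closed half plane `Re s ≥ σ` and has no zeros in the open half plane
   `Re s > σ` IF AND ONLY IF for every real `t` the integral is finite for some `A > 0` and some `r ≥ 0`.
   For `σ = 1` and with the functional equation the left side is: `L(E/K, s)` is entire and satisfies the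
   Riemann hypothesis.

4. `L(E/K, s)` has neither zeros nor poles with `Re s > σ` IF AND ONLY IF the integral at the single real
   point `t = 0` is finite for some `A > 0` and some `r`; then `r` is the order at `σ` (a negative integer for
   a pole) and `A` the absolute value of the leading coefficient.

Proof.  The mean square deviation is the norm of `(log L(σ + s) - r log s - log A)/s` in the Hardy space of
`Re s > 0` (for `t ≠ 0` one uses `L(σ + it + s) conj L(σ + it + conj s)`).  If `G₁/G₂` has neither zeros nor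
poles there, the common zeros of `G₁` and `G₂` are removed by Blaschke factors on discs of bounded radius; the
number of the remaining zeros, all on the left of the line, is `O(log T)` by Jensen's inequality, and each
contributes a bounded amount to the local mean square of `log L` (`Pool.Agent.V11288.QU`).
-/

set_option autoImplicit false

namespace Pool.Agent.Results.MP_bf61d2_nt.HolomorphyAndPrimes

open Filter Topology MeasureTheory Set NumberField IsDedekindDomain

variable {K : Type} [Field K] [NumberField K]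

/-- The norm of `v`. -/
noncomputable def nrm (v : HeightOneSpectrum (𝓞 K)) : ℕ := Ideal.absNorm v.asIdeal

/-- `v` does not divide `6 (4 a³ + 27 b²)`. -/
def Good (a b : 𝓞 K) (v : HeightOneSpectrum (𝓞 K)) : Prop :=
  6 * (4 * a ^ 3 + 27 * b ^ 2) ∉ v.asIdeal

/-- The number of affine points of `y² = x³ + a x + b` modulo `v`. -/
noncomputable def pts (a b : 𝓞 K) (v : HeightOneSpectrum (𝓞 K)) : ℕ :=
  Nat.card {P : (𝓞 K ⧸ v.asIdeal) × (𝓞 K ⧸ v.asIdeal) //
    P.2 ^ 2 = P.1 ^ 3 + Ideal.Quotient.mk v.asIdeal a * P.1 + Ideal.Quotient.mk v.asIdeal b}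

/-- The Euler factor `(1 - a_v (N v)^{-s} + (N v)^{1 - 2s})⁻¹`, `a_v = N v - N_v`. -/
noncomputable def factor (a b : 𝓞 K) (v : HeightOneSpectrum (𝓞 K)) (s : ℂ) : ℂ :=
  (1 - ((nrm v : ℂ) - pts a b v) * (nrm v : ℂ) ^ (-s) + (nrm v : ℂ) ^ (1 - 2 * s))⁻¹

/-- `L(E/K, s)` is, far to the right, the quotient `G₁/G₂` of two functions which are holomorphic and of
polynomial growth on a half plane `Re s > σ - η`, and `G₂` is not too small far to the right. -/
structure IsQuotient (a b : 𝓞 K) (σ : ℝ) (G₁ G₂ : ℂ → ℂ) : Prop where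
  cont : ∃ (η C : ℝ) (κ : ℕ), 0 < η ∧ ∀ s : ℂ, σ - η < s.re →
    DifferentiableAt ℂ G₁ s ∧ DifferentiableAt ℂ G₂ s ∧
      ‖G₁ s‖ ≤ C * (1 + ‖s‖) ^ κ ∧ ‖G₂ s‖ ≤ C * (1 + ‖s‖) ^ κ
  prod : ∃ (β C : ℝ) (κ : ℕ), ∀ s : ℂ, β < s.re →
    HasProd (fun v : {v // Good a b v} => factor a b v.1 s) (G₁ s / G₂ s) ∧
      1 ≤ C * (1 + ‖s‖) ^ κ * ‖G₂ s‖

/-- `a(v, k) = N v^k + 1 - #E(𝔽_{v^k})`, the sum of the `k`-th powers of the eigenvalues of Frobenius. -/
noncomputable def trace (a b : 𝓞 K) (v : HeightOneSpectrum (𝓞 K)) : ℕ → ℝ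
  | 0 => 2
  | 1 => (nrm v : ℝ) - pts a b v
  | k + 2 => ((nrm v : ℝ) - pts a b v) * trace a b v (k + 1) - nrm v * trace a b v k

/-- `log |P_{σ+it}(Y)|`: the sum of `Re (a(v, k) / (N v)^(k (σ + it))) / k` over all good primes `v` and
`k ≥ 1` (here `k = v.2 + 1`) with `(N v)^k ≤ Y`. -/
noncomputable def logAbsP (a b : 𝓞 K) (σ t Y : ℝ) : ℝ :=
  ∑ᶠ (v : {v // Good a b v} × ℕ) (_ : (nrm v.1.1 : ℝ) ^ (v.2 + 1) ≤ Y),
    ((trace a b v.1.1 (v.2 + 1) : ℂ) /
      (nrm v.1.1 : ℂ) ^ (((v.2 : ℂ) + 1) * (σ + t * Complex.I))).re / ((v.2 : ℝ) + 1)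

/-- `∫_1^∞ (log |P_{σ+it}(Y)| + r (γ + log log Y) - log A)² dY/Y ∈ [0, ∞]`. -/
noncomputable def meanSquare (a b : 𝓞 K) (σ t r A : ℝ) : ENNReal :=
  ∫⁻ Y in Ioi (1 : ℝ), ENNReal.ofReal
    ((logAbsP a b σ t Y + r * (Real.eulerMascheroniConstant + Real.log (Real.log Y)) - Real.log A) ^ 2 / Y)

/-- The meromorphic function `G₁/G₂` has neither zeros nor poles with `Re s > σ`. -/
def NoZerosNoPoles (G₁ G₂ : ℂ → ℂ) (σ : ℝ) : Prop :=
  ∀ s : ℂ, σ < s.re → meromorphicOrderAt (fun s => G₁ s / G₂ s) s = 0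

/-- The order of `G₁/G₂` at `c` is the integer `r` and `A` is the absolute value of the leading coefficient:
`|G₁(s)/G₂(s)| / |s - c|^r → A` for `s → c`. -/
def LeadingAt (G₁ G₂ : ℂ → ℂ) (c : ℂ) (r A : ℝ) : Prop :=
  ∃ k : ℤ, r = k ∧ Tendsto (fun s : ℂ => ‖G₁ s / G₂ s‖ / ‖s - c‖ ^ k) (𝓝[≠] c) (𝓝 A)

open Pool.Agent.TH942.ES
open Pool.Agent.V11288.QU

theorem isQ {a b : 𝓞 K} {σ : ℝ} {G₁ G₂ : ℂ → ℂ} (h : IsQuotient a b σ G₁ G₂) :
    App.IsQuotient (S := {v | GoodV a b v}) σ (App.eig a b) G₁ G₂ := by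
  refine ⟨h.cont, ?_⟩
  obtain ⟨β, C, κ, h1⟩ := h.prod
  refine ⟨β, C, κ, fun s hs => ⟨?_, (h1 s hs).2⟩⟩
  have h2 := (h1 s hs).1
  have e : (fun v : {v // v ∈ {v | GoodV a b v}} =>
      Pool.Agent.V11288.HS.EX.factor (S := {v | GoodV a b v}) (App.eig a b) v s) =
      fun v : {v // v ∈ {v | GoodV a b v}} => efV a b v.1 s := funext fun v => App.eig_factor a b v s
  rw [e]
  exact h2

theorem ms_eq (a b : 𝓞 K) (σ t r A : ℝ) : meanSquare a b σ t r A =
    App.meanSquare (S := {v | GoodV a b v}) σ t (App.eig a b) r A := by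
  have e : ∀ Y : ℝ, logAbsP a b σ t Y = App.logAbs (S := {v | GoodV a b v}) σ t (App.eig a b) Y := by
    intro Y
    unfold logAbsP App.logAbs
    refine finsum_congr fun p => finsum_congr fun _ => ?_
    rw [App.eig_trace a b p.1 (T := trace a b p.1.1) rfl rfl (fun j => rfl) (p.2 + 1)]
    rfl
  unfold meanSquare App.meanSquare
  simp only [e]

theorem real_tr (a b : 𝓞 K) : App.RealTr (S := {v | GoodV a b v}) (App.eig a b) := by
  intro v k
  rw [App.eig_trace a b v (T := trace a b v.1) rfl rfl (fun j => rfl) k, Complex.ofReal_im]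

/-- **Zeros and poles of `L(E/K, s)` and the absolute values of the partial Euler products.** -/
theorem result (K : Type) [Field K] [NumberField K] (a b : 𝓞 K) (σ : ℝ) (hσ : 1 ≤ σ) (G₁ G₂ : ℂ → ℂ)
    (hG : IsQuotient a b σ G₁ G₂) :
    (∀ r A : ℝ → ℝ, (∀ t, 0 < A t) →
      ((NoZerosNoPoles G₁ G₂ σ ∧ ∀ t : ℝ, LeadingAt G₁ G₂ (σ + t * Complex.I) (r t) (A t)) ↔
        ∀ t : ℝ, meanSquare a b σ t (r t) (A t) < ⊤)) ∧
    (∀ t r A : ℝ, 0 < A → meanSquare a b σ t r A < ⊤ →
      meanSquare a b σ t r A = ENNReal.ofReal Real.pi⁻¹ * ∫⁻ u : ℝ, ENNReal.ofReal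
        (((Real.log ‖G₁ (σ + (t + u) * Complex.I) / G₂ (σ + (t + u) * Complex.I)‖ +
          Real.log ‖G₁ (σ + (t - u) * Complex.I) / G₂ (σ + (t - u) * Complex.I)‖) / 2 -
            r * Real.log |u| - Real.log A) ^ 2 / u ^ 2)) ∧
    ((NoZerosNoPoles G₁ G₂ σ ∧
        ∀ s : ℂ, s.re = σ → 0 ≤ meromorphicOrderAt (fun s => G₁ s / G₂ s) s) ↔
      ∀ t : ℝ, ∃ r A : ℝ, 0 < A ∧ 0 ≤ r ∧ meanSquare a b σ t r A < ⊤) ∧
    (NoZerosNoPoles G₁ G₂ σ ↔ ∃ r A : ℝ, 0 < A ∧ meanSquare a b σ 0 r A < ⊤) ∧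
    ∀ r A : ℝ, 0 < A →
      ((NoZerosNoPoles G₁ G₂ σ ∧ LeadingAt G₁ G₂ σ r A) ↔ meanSquare a b σ 0 r A < ⊤) := by
  have hQ := isQ hG
  have hb := App.eig_bound a b
  have hr := real_tr a b
  have hw : (1 : ℝ) ≤ 2 * σ - 1 := by linarith
  simp only [ms_eq]
  refine ⟨fun r A hA => App.all hb hw hQ r A hA, fun t r A hA hf => App.formula hb hw hQ t r hA hf, ?_,
    App.real_iff hb hr hw hQ, fun r A hA => App.real_point hb hr hw hQ r hA⟩
  have h1 := App.closed hb hw hQ (fun _ r => 0 ≤ r)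
  refine Iff.trans (and_congr Iff.rfl ?_) h1
  constructor
  · intro h t
    obtain ⟨k, A, -, h2, -⟩ := App.exists_order hb hw hQ t
    refine ⟨k, h2, ?_⟩
    have h3 := h (σ + t * Complex.I) (by simp)
    rw [h2] at h3
    have h4 : (0 : ℤ) ≤ k := by exact_mod_cast h3
    exact_mod_cast h4
  · intro h s hs
    obtain ⟨k, h2, h3⟩ := h s.im
    have e : (σ : ℂ) + s.im * Complex.I = s := by
      rw [← hs]
      exact Complex.re_add_im s
    rw [e] at h2
    rw [h2]
    have h4 : (0 : ℤ) ≤ k := by exact_mod_cast h3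
    exact_mod_cast h4

end Pool.Agent.Results.MP_bf61d2_nt.HolomorphyAndPrimes
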