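import Pool.Agent.V11333.OneSide4
import Pool.Agent.TH942.ES.NF

/-!
# The continuation of `L(E/K, s)` from the real axis to half planes by bounds from one side

Let `E : y² = x³ + a x + b` be an elliptic curve over a number field `K`, `a, b ∈ 𝓞_K`. For the primes `v` not
dividing `6 (4 a³ + 27 b²)` let `N v` be the norm and `N_v + 1` the number of points modulo `v`, and let
`P(x) = ∏_{N v ≤ x} (N_v + 1) / N v` be the product considered by Birch and Swinnerton-Dyer. The Euler product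
`L(E, s)` over these primes converges for `Re s > 3/2`; for general `K` no continuation is known, and nothing is
assumed about modularity. (The finitely many other Euler factors have neither zeros nor poles for
`Re s ≥ 1`.) Trivially `|log P(x)| = O(x^{1/2 + ε})`.

The theorem says that an analytic continuation of `L(E, s)` along the REAL axis and bounds from ONE side
together give the holomorphic continuation to a half plane:

1. Let `0 ≤ α`. If `L(E, s)` has an analytic continuation to a neighbourhood of the real numbers `s > 1 + α`, and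
   `∫_0^∞ max (log P(e^t), 0) e^{-wt} dt < ∞` for all `w > α`, then `L(E, s)` has a holomorphic continuation
   without zeros to `Re s > 1 + α`. The same holds if `1/L(E, s)` has an analytic continuation to a neighbourhood
   of the real numbers `s > 1 + α` and `∫_0^∞ max (-log P(e^t), 0) e^{-wt} dt < ∞` for all `w > α`. More precisely,
   each of these two conditions is equivalent to `∫_0^∞ |log P(e^t)| e^{-wt} dt < ∞` for all `w > α`.
   In particular a bound `log P(x) ≤ C x^{α + ε}` (or `log P(x) ≥ -C x^{α + ε}`) for all `ε > 0` is enough.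
2. With the smooth weights `w_ρ(u) = (1/2πi) ∫ exp(z - u z^{1/ρ}) dz/z`, `ρ > 1`, and the means
   `S_ρ(Y) = ∑_v w_ρ(log N v / log Y) log ((N_v + 1) / N v)`, `N v ≤ exp ((log Y)^{ρ'})`, there is an equivalence:
   `L(E, s)` has a holomorphic continuation without zeros to the union of `Re s > 3/2` and the sector
   `|arg (s - 1)| < π/(2ρ)` IF AND ONLY IF it has an analytic continuation along the real interval `s > 1` and
   `S_ρ(Y) ≤ C exp(ε (log Y)^ρ)` for every `ε > 0`; and if and only if `1/L(E, s)` has an analytic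
   continuation along the real interval `s > 1` and `S_ρ(Y) ≥ -C exp(ε (log Y)^ρ)` for every `ε > 0`.
3. `L(E, s)` has a holomorphic continuation without zeros to `Re s > 1` if and only if it has an
   analytic continuation along the real interval `s > 1` and these bounds from above hold for all `ρ > 1`;
   and if and only if this is true of `1/L(E, s)` and the bounds from below.

The equivalence of the continuation to the sectors with the TWO-sided bounds for `S_ρ`, without a
hypothesis on the real axis, is `MP_7ed9c3_nt.HalfPlaneCriterion`. Here zeros of `L` on the real axis are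
allowed in the hypotheses with the upper bounds and poles in those with the lower bounds; that there are
none is part of the conclusion.

Proof. A version of Landau's theorem for a continuation which is only given along the real axis
(`Pool.Agent.V11333.OneSide1`): if the abscissa of convergence `s` of the Laplace transform of `κ - a ≥ 0` were
too large, then the continued function would not vanish at `s` by positivity, so its logarithm would be real
analytic at `s`, a contradiction. It is applied to `log P(e^t)`, and to `S_ρ` as a function of `(log Y)^ρ`, whose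
Laplace transform at `v` is the logarithm of the Euler product at `1 + v^{1/ρ}` over `v`, up to a correction
which is holomorphic for `Re v > 0`.
-/

set_option autoImplicit false

namespace Pool.Agent.Results.MP_bf61d2_nt.OneSidedContinuation

open Filter Topology Set NumberField IsDedekindDomain MeasureTheory

variable {K : Type} [Field K] [NumberField K]

/-- The norm of `v`. -/
noncomputable def nrm (v : HeightOneSpectrum (𝓞 K)) : ℕ := Ideal.absNorm v.asIdeal

/-- `v` does not divide `6 (4 a³ + 27 b²)`. -/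
def Good (a b : 𝓞 K) (v : HeightOneSpectrum (𝓞 K)) : Prop :=
  6 * (4 * a ^ 3 + 27 * b ^ 2) ∉ v.asIdeal

/-- The number of affine points of `y² = x³ + a x + b` modulo `v`. -/
noncomputable def pts (a b : 𝓞 K) (v : HeightOneSpectrum (𝓞 K)) : ℕ :=
  Nat.card {P : (𝓞 K ⧸ v.asIdeal) × (𝓞 K ⧸ v.asIdeal) //
    P.2 ^ 2 = P.1 ^ 3 + Ideal.Quotient.mk v.asIdeal a * P.1 + Ideal.Quotient.mk v.asIdeal b}

/-- The Euler factor `(1 - a_v (N v)^{-s} + (N v)^{1 - 2s})⁻¹`, `a_v = N v - N_v`. -/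
noncomputable def factor (a b : 𝓞 K) (v : HeightOneSpectrum (𝓞 K)) (s : ℂ) : ℂ :=
  (1 - ((nrm v : ℂ) - pts a b v) * (nrm v : ℂ) ^ (-s) + (nrm v : ℂ) ^ (1 - 2 * s))⁻¹

/-- `L(E, s)` has a holomorphic continuation without zeros to the union of `U` and the half plane
`Re s > 3/2`. -/
def Continues (a b : 𝓞 K) (U : Set ℂ) : Prop :=
  ∃ G : ℂ → ℂ, (∀ s : ℂ, s ∈ U ∨ 3 / 2 < s.re → DifferentiableAt ℂ G s ∧ G s ≠ 0) ∧
    ∀ s : ℂ, 3 / 2 < s.re → HasProd (fun v : {v // Good a b v} => factor a b v.1 s) (G s)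

/-- `L(E, s)` has an analytic continuation along the real axis to all `s > 1 + α`: there is a function
which is analytic at all real points `x > 1 + α` and equal to the Euler product at the real points
`x > 3/2`. -/
def RealContinues (a b : 𝓞 K) (α : ℝ) : Prop :=
  ∃ H : ℂ → ℂ, (∀ x : ℝ, 1 + α < x → AnalyticAt ℂ H x) ∧
    ∀ x : ℝ, 3 / 2 < x → HasProd (fun v : {v // Good a b v} => factor a b v.1 x) (H x)

/-- The same for `1/L(E, s)` (so `L(E, s)` may have poles, but no zeros, at real `s > 1 + α`). -/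
def RealContinuesInv (a b : 𝓞 K) (α : ℝ) : Prop :=
  ∃ H : ℂ → ℂ, (∀ x : ℝ, 1 + α < x → AnalyticAt ℂ H x) ∧
    ∀ x : ℝ, 3 / 2 < x → HasProd (fun v : {v // Good a b v} => factor a b v.1 x) (H x)⁻¹

/-- `log P(x)`, the sum of `log ((N_v + 1) / N v)` over the good `v` with `N v ≤ x`. -/
noncomputable def logP (a b : 𝓞 K) (x : ℝ) : ℝ :=
  ∑ᶠ (v : {v // Good a b v}) (_ : (nrm v.1 : ℝ) ≤ x),
    Real.log (((pts a b v.1 : ℝ) + 1) / nrm v.1)

/-- `∫_0^∞ |f(t)| e^{-wt} dt < ∞` for all `w > α`. -/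
def LaplaceConverges (f : ℝ → ℝ) (α : ℝ) : Prop :=
  ∀ w : ℝ, α < w → IntegrableOn (fun t : ℝ => f t * Real.exp (-(w * t))) (Ioi 0)

/-- The open sector `|arg (s - 1)| < π/(2ρ)` with vertex `1`. -/
def Sector (ρ : ℝ) : Set ℂ := {s | s ≠ 1 ∧ |(s - 1).arg| < Real.pi / (2 * ρ)}

/-- The weight `w_ρ(u) = (1/2πi) ∫_{Re z = 1} exp(z - u z^{1/ρ}) dz/z`. -/
noncomputable def weight (ρ u : ℝ) : ℝ :=
  (2 * Real.pi)⁻¹ * ∫ t : ℝ, (Complex.exp ((1 + t * Complex.I) -
    u * (1 + t * Complex.I) ^ ((ρ⁻¹ : ℝ) : ℂ)) / (1 + t * Complex.I)).re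

/-- The mean `∑ w_ρ(log N v / log Y) log ((N_v + 1) / N v)` over the good primes with
`N v ≤ exp ((log Y)^{ρ'})`. -/
noncomputable def mean (a b : 𝓞 K) (ρ ρ' Y : ℝ) : ℝ :=
  ∑ᶠ (v : {v // Good a b v}) (_ : (nrm v.1 : ℝ) ≤ Real.exp (Real.log Y ^ ρ')),
    weight ρ (Real.log (nrm v.1) / Real.log Y) * Real.log (((pts a b v.1 : ℝ) + 1) / nrm v.1)

/-- `S_ρ(Y) ≤ C exp(ε (log Y)^ρ)` for every `ε > 0`, with some `C`, for large `Y`. -/
def Upper (a b : 𝓞 K) (ρ ρ' : ℝ) : Prop :=
  ∀ ε : ℝ, 0 < ε → ∃ C : ℝ, ∀ᶠ Y : ℝ in atTop,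
    mean a b ρ ρ' Y ≤ C * Real.exp (ε * Real.log Y ^ ρ)

/-- `S_ρ(Y) ≥ -C exp(ε (log Y)^ρ)` for every `ε > 0`, with some `C`, for large `Y`. -/
def Lower (a b : 𝓞 K) (ρ ρ' : ℝ) : Prop :=
  ∀ ε : ℝ, 0 < ε → ∃ C : ℝ, ∀ᶠ Y : ℝ in atTop,
    -(C * Real.exp (ε * Real.log Y ^ ρ)) ≤ mean a b ρ ρ' Y

open Pool.Agent.TH942.ES in
theorem mean_eq (a b : 𝓞 K) (ρ ρ' Y : ℝ) : mean a b ρ ρ' Y =
    SrE (fun v : {v // GoodV a b v} => Pool.Agent.H921R2.TatePole.nm v.1) (alV a b) ρ ρ' Y := by
  unfold mean SrE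
  refine finsum_congr fun v => finsum_congr fun _ => ?_
  rw [curve_cv]
  rfl

open Pool.Agent.TH942.ES Pool.Agent.V11333.OneSide in
theorem logP_eq (a b : 𝓞 K) (x : ℝ) : logP a b x =
    SP (fun v : {v // GoodV a b v} => Pool.Agent.H921R2.TatePole.nm v.1) (alV a b) x := by
  unfold logP SP
  refine finsum_congr fun v => finsum_congr fun _ => ?_
  rw [curve_cv]
  rfl

open Pool.Agent.TH942.ES in
theorem prod_eq (a b : 𝓞 K) (s : ℂ) :
    (fun v : {v // Good a b v} => factor a b v.1 s) = fun v : {v // GoodV a b v} =>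
      ∏ i, (1 - zv (fun v : {v // GoodV a b v} => Pool.Agent.H921R2.TatePole.nm v.1) (alV a b) v i *
        xv (fun v : {v // GoodV a b v} => Pool.Agent.H921R2.TatePole.nm v.1) v (s - 1))⁻¹ := by
  funext v
  rw [curve_factor, add_sub_cancel]
  rfl

open Pool.Agent.TH942.ES in
theorem hasProd_iff (a b : 𝓞 K) {s : ℂ} (hs : 3 / 2 < s.re) (y : ℂ) :
    HasProd (fun v : {v // Good a b v} => factor a b v.1 s) y ↔
      y = LE (fun v : {v // GoodV a b v} => Pool.Agent.H921R2.TatePole.nm v.1) (alV a b) (s - 1) := by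
  have h1 : 1 / 2 < (s - 1).re := by
    rw [Complex.sub_re, Complex.one_re]
    linarith
  have h2 := (curve_sys a b).hasProd h1
  rw [prod_eq]
  constructor
  · intro h
    exact h.tprod_eq.symm
  · rintro rfl
    unfold Pool.Agent.TH942.ES.LE
    rw [h2.tprod_eq]
    exact h2

theorem sector_shift (ρ : ℝ) (s : ℂ) : s ∈ Sector ρ ↔ s - 1 ∈ Pool.Agent.TH942.SL.Sect ρ := by
  unfold Sector Pool.Agent.TH942.SL.Sect
  simp only [Set.mem_ofPred_eq, sub_ne_zero]

theorem sector_sub {ρ : ℝ} (hρ : 1 < ρ) {s : ℂ} (hs : s ∈ Sector ρ) : 1 < s.re :=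
  Pool.Agent.TH942.SL.re_of_sector hρ hs.1 hs.2

theorem sector_open {ρ : ℝ} (hρ : 1 < ρ) : IsOpen (Sector ρ) := by
  have h : Sector ρ = (fun s : ℂ => s - 1) ⁻¹' Pool.Agent.TH942.SL.Sect ρ := by
    ext s
    exact sector_shift ρ s
  rw [h]
  exact (Pool.Agent.TH942.SL.sect_open hρ).preimage (by fun_prop)

theorem sector_real {ρ : ℝ} (hρ : 1 < ρ) {x : ℝ} (hx : 1 < x) : (x : ℂ) ∈ Sector ρ := by
  rw [sector_shift]
  have h := Pool.Agent.TH942.SL.sect_real hρ (x := x - 1) (by linarith)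
  push_cast at h
  exact h

/-- A continuation to an open set gives the continuations along the real axis. -/
theorem real_of_cont {a b : 𝓞 K} {α : ℝ} {U : Set ℂ} (hU : IsOpen U)
    (hα : ∀ x : ℝ, 1 + α < x → (x : ℂ) ∈ U) (h : Continues a b U) :
    RealContinues a b α ∧ RealContinuesInv a b α := by
  obtain ⟨G, h1, h2⟩ := h
  have hG : ∀ x : ℝ, 1 + α < x → AnalyticAt ℂ G x := fun x hx =>
    DifferentiableOn.analyticAt (s := U)
      (fun s hs => (h1 s (Or.inl hs)).1.differentiableWithinAt) (hU.mem_nhds (hα x hx))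
  refine ⟨⟨G, hG, fun x hx => h2 x (by rwa [Complex.ofReal_re])⟩,
    ⟨fun s => (G s)⁻¹, fun x hx => (hG x hx).inv (h1 x (Or.inl (hα x hx))).2, fun x hx => ?_⟩⟩
  rw [inv_inv]
  exact h2 x (by rwa [Complex.ofReal_re])

open Pool.Agent.TH942.ES in
/-- The shifted function on the real axis. -/
theorem shift_real {a b : 𝓞 K} {α : ℝ} (h : RealContinues a b α) : ∃ H : ℂ → ℂ,
    (∀ x : ℝ, α < x → AnalyticAt ℂ H x) ∧ ∀ x : ℝ, 1 / 2 < x → H x =
      LE (fun v : {v // GoodV a b v} => Pool.Agent.H921R2.TatePole.nm v.1) (alV a b) x := by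
  obtain ⟨H, h1, h2⟩ := h
  refine ⟨fun s => H (s + 1), fun x hx => ?_, fun x hx => ?_⟩
  · have e : AnalyticAt ℂ H ((x : ℂ) + 1) := by
      have := h1 (x + 1) (by linarith)
      push_cast at this
      exact this
    exact AnalyticAt.comp (g := H) (f := fun s : ℂ => s + 1) e (analyticAt_id.add analyticAt_const)
  · have e := h2 (x + 1) (by linarith)
    rw [hasProd_iff a b (by rw [Complex.ofReal_re]; linarith)] at e
    push_cast at e
    rw [add_sub_cancel_right] at e
    exact e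

open Pool.Agent.TH942.ES in
theorem shift_real_inv {a b : 𝓞 K} {α : ℝ} (h : RealContinuesInv a b α) : ∃ H : ℂ → ℂ,
    (∀ x : ℝ, α < x → AnalyticAt ℂ H x) ∧ ∀ x : ℝ, 1 / 2 < x → H x =
      (LE (fun v : {v // GoodV a b v} => Pool.Agent.H921R2.TatePole.nm v.1) (alV a b) x)⁻¹ := by
  obtain ⟨H, h1, h2⟩ := h
  refine ⟨fun s => H (s + 1), fun x hx => ?_, fun x hx => ?_⟩
  · have e : AnalyticAt ℂ H ((x : ℂ) + 1) := by
      have := h1 (x + 1) (by linarith)
      push_cast at this
      exact this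
    exact AnalyticAt.comp (g := H) (f := fun s : ℂ => s + 1) e (analyticAt_id.add analyticAt_const)
  · have e := h2 (x + 1) (by linarith)
    rw [hasProd_iff a b (by rw [Complex.ofReal_re]; linarith)] at e
    push_cast at e
    rw [add_sub_cancel_right] at e
    rw [← e, inv_inv]

open Pool.Agent.TH942.ES in
/-- Back from the shifted functions. -/
theorem cont_shift {a b : 𝓞 K} {U V : Set ℂ} (hUV : ∀ s : ℂ, s ∈ U → s - 1 ∈ V)
    (h : ∃ G : ℂ → ℂ, (∀ s : ℂ, s ∈ V ∨ 1 / 2 < s.re → DifferentiableAt ℂ G s ∧ G s ≠ 0) ∧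
      ∀ s : ℂ, 1 / 2 < s.re → G s =
        LE (fun v : {v // GoodV a b v} => Pool.Agent.H921R2.TatePole.nm v.1) (alV a b) s) :
    Continues a b U := by
  obtain ⟨G, h1, h2⟩ := h
  have h3 : ∀ s : ℂ, 3 / 2 < s.re → 1 / 2 < (s - 1).re := fun s hs => by
    rw [Complex.sub_re, Complex.one_re]
    linarith
  refine ⟨fun s => G (s - 1), fun s hs => ?_, fun s hs => ?_⟩
  · have h4 := h1 (s - 1) (hs.imp (hUV s) (h3 s))
    exact ⟨h4.1.comp s (by fun_prop), h4.2⟩
  · rw [hasProd_iff a b hs]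
    exact h2 (s - 1) (h3 s hs)

open Pool.Agent.TH942.ES in
/-- The continuation to the sector implies the two-sided bounds. -/
theorem bounds_of_cont (a b : 𝓞 K) {ρ ρ' : ℝ} (hρ : 1 < ρ) (hρ' : ρ < ρ')
    (h : Continues a b (Sector ρ)) : Upper a b ρ ρ' ∧ Lower a b ρ ρ' := by
  have E := curve_sys a b
  obtain ⟨G, h1, h2⟩ := h
  have hd : ∀ s ∈ Pool.Agent.TH942.SL.Sect ρ, DifferentiableAt ℂ (fun s => G (s + 1)) s := by
    intro s hs
    have h3 : s + 1 ∈ Sector ρ := by rwa [sector_shift, add_sub_cancel_right]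
    have h4 := (h1 (s + 1) (Or.inl h3)).1
    exact h4.comp s (by fun_prop)
  have key : ∀ ε : ℝ, 0 < ε → ∃ C : ℝ, ∀ᶠ Y : ℝ in atTop,
      |mean a b ρ ρ' Y| ≤ C * Real.exp (ε * Real.log Y ^ ρ) := by
    intro ε hε
    obtain ⟨C, hC⟩ := E.small_of_cont hρ hρ' hd (fun s hs => by
        have h3 : s + 1 ∈ Sector ρ := by rwa [sector_shift, add_sub_cancel_right]
        exact (h1 (s + 1) (Or.inl h3)).2) (σ := 1 / 2) (fun s hs h3 => by
        have h4 : 3 / 2 < (s + 1).re := by
          rw [Complex.add_re, Complex.one_re]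
          linarith
        have h5 := (hasProd_iff a b h4 _).1 (h2 (s + 1) h4)
        rw [add_sub_cancel_right] at h5
        exact h5) hε
    refine ⟨C, hC.mono fun Y hY => ?_⟩
    rw [mean_eq]
    exact hY
  constructor
  · intro ε hε
    obtain ⟨C, hC⟩ := key ε hε
    exact ⟨C, hC.mono fun Y hY => (le_abs_self _).trans hY⟩
  · intro ε hε
    obtain ⟨C, hC⟩ := key ε hε
    exact ⟨C, hC.mono fun Y hY => (abs_le.1 hY).1⟩

theorem neg_laplace {f : ℝ → ℝ} {α : ℝ} (h : LaplaceConverges (fun t => -f t) α) :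
    LaplaceConverges f α := fun w hw => by
  have h1 : Pool.Agent.W263.BSD.LInt (fun t => -f t) w := h w hw
  have h2 := h1.neg
  simp only [neg_neg] at h2
  exact h2

open Pool.Agent.TH942.ES Pool.Agent.V11333.OneSide Pool.Agent.W263.BSD in
/-- **The partial products.** -/
theorem products (a b : 𝓞 K) {α : ℝ} (hα : 0 ≤ α) :
    List.TFAE [
      LaplaceConverges (fun t => logP a b (Real.exp t)) α,
      RealContinues a b α ∧ LaplaceConverges (fun t => max (logP a b (Real.exp t)) 0) α,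
      RealContinuesInv a b α ∧ LaplaceConverges (fun t => max (-logP a b (Real.exp t)) 0) α] ∧
    (LaplaceConverges (fun t => logP a b (Real.exp t)) α → Continues a b {s | 1 + α < s.re}) := by
  have E := curve_sys a b
  set NN : {v // GoodV a b v} → ℕ := fun v => Pool.Agent.H921R2.TatePole.nm v.1 with hNN
  have e0 : (fun t => logP a b (Real.exp t)) = st NN (alV a b) := by
    funext t
    exact logP_eq a b (Real.exp t)
  have e1 : (fun t => max (logP a b (Real.exp t)) 0) = fun t => max (st NN (alV a b) t) 0 := by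
    funext t
    rw [← e0]
  have e2 : (fun t => max (-logP a b (Real.exp t)) 0) = fun t => max (-st NN (alV a b) t) 0 := by
    funext t
    rw [← e0]
  have hc : LaplaceConverges (fun t => logP a b (Real.exp t)) α →
      Continues a b {s | 1 + α < s.re} := by
    rw [e0]
    intro h
    refine cont_shift (V := {s | α < s.re}) (fun s hs => ?_) (cont_of_st E hα h)
    have : 1 + α < s.re := hs
    show α < (s - 1).re
    rw [Complex.sub_re, Complex.one_re]
    linarith
  have hr : LaplaceConverges (fun t => logP a b (Real.exp t)) α →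
      RealContinues a b α ∧ RealContinuesInv a b α := fun h =>
    real_of_cont (isOpen_lt continuous_const Complex.continuous_re)
      (fun x hx => by
        show 1 + α < (x : ℂ).re
        rwa [Complex.ofReal_re]) (hc h)
  refine ⟨?_, hc⟩
  tfae_have 1 → 2 := by
    intro h
    refine ⟨(hr h).1, ?_⟩
    rw [e1]
    rw [e0] at h
    exact fun w hw => LInt.posPart (st_meas E) (h w hw)
  tfae_have 1 → 3 := by
    intro h
    refine ⟨(hr h).2, ?_⟩
    rw [e2]
    rw [e0] at h
    exact fun w hw => LInt.posPart (st_meas E).neg (LInt.neg (h w hw))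
  tfae_have 2 → 1 := by
    rintro ⟨h1, h2⟩
    rw [e1] at h2
    rw [e0]
    obtain ⟨H, h3, h4⟩ := shift_real h1
    exact (data_upper E hα h3 h4).core_upper le_rfl ((st_meas E).max measurable_const) h2
      fun u _ => le_max_left _ _
  tfae_have 3 → 1 := by
    rintro ⟨h1, h2⟩
    rw [e2] at h2
    rw [e0]
    obtain ⟨H, h3, h4⟩ := shift_real_inv h1
    exact neg_laplace ((data_lower E hα h3 h4).core_upper le_rfl
      ((st_meas E).neg.max measurable_const) h2 fun u _ => le_max_left _ _)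
  tfae_finish

/-- a pointwise bound for `f(x)` in terms of `t = log x` -/
theorem pointwise {f : ℝ → ℝ} {α : ℝ}
    (h : ∀ ε : ℝ, 0 < ε → ∃ C : ℝ, ∀ᶠ x : ℝ in atTop, f x ≤ C * x ^ (α + ε)) :
    ∀ ε : ℝ, 0 < ε → ∃ C y₀ : ℝ, ∀ y, y₀ ≤ y → f (Real.exp y) ≤ C * Real.exp ((α + ε) * y) := by
  intro ε hε
  obtain ⟨C, hC⟩ := h ε hε
  obtain ⟨y₀, hy₀⟩ := (Real.tendsto_exp_atTop.eventually hC).exists_forall_of_atTop
  refine ⟨C, y₀, fun y hy => ?_⟩
  have h1 := hy₀ y hy
  rwa [← Real.exp_mul, mul_comm y] at h1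

open Pool.Agent.TH942.ES Pool.Agent.V11333.OneSide Pool.Agent.W263.BSD in
/-- **Pointwise bounds for the partial products.** -/
theorem products_pointwise (a b : 𝓞 K) {α : ℝ} (hα : 0 ≤ α)
    (h : (RealContinues a b α ∧ ∀ ε : ℝ, 0 < ε → ∃ C : ℝ, ∀ᶠ x : ℝ in atTop,
        logP a b x ≤ C * x ^ (α + ε)) ∨
      (RealContinuesInv a b α ∧ ∀ ε : ℝ, 0 < ε → ∃ C : ℝ, ∀ᶠ x : ℝ in atTop,
        -(C * x ^ (α + ε)) ≤ logP a b x)) :
    Continues a b {s | 1 + α < s.re} := by
  have E := curve_sys a b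
  set NN : {v // GoodV a b v} → ℕ := fun v => Pool.Agent.H921R2.TatePole.nm v.1 with hNN
  have e0 : (fun t => logP a b (Real.exp t)) = st NN (alV a b) := by
    funext t
    exact logP_eq a b (Real.exp t)
  refine (products a b hα).2 ?_
  obtain ⟨K₀, hK₀, hb⟩ := st_bound E (σ := 1) (by norm_num)
  rcases h with ⟨h1, h2⟩ | ⟨h1, h2⟩
  · obtain ⟨H, h3, h4⟩ := shift_real h1
    rw [e0]
    refine (data_upper E hα h3 h4).conv hK₀ zero_le_one
      (fun u _ => (le_abs_self _).trans (hb u)) ?_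
    have h5 := pointwise h2
    intro ε hε
    obtain ⟨C, y₀, hC⟩ := h5 ε hε
    refine ⟨C, y₀, fun y hy => ?_⟩
    rw [← e0]
    exact hC y hy
  · obtain ⟨H, h3, h4⟩ := shift_real_inv h1
    rw [e0]
    refine neg_laplace ((data_lower E hα h3 h4).conv hK₀ zero_le_one
      (fun u _ => (neg_le_abs _).trans (hb u)) ?_)
    have h5 := pointwise (f := fun x => -logP a b x) (α := α) (fun ε hε => by
      obtain ⟨C, hC⟩ := h2 ε hε
      exact ⟨C, hC.mono fun x hx => by linarith⟩)
    intro ε hε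
    obtain ⟨C, y₀, hC⟩ := h5 ε hε
    refine ⟨C, y₀, fun y hy => ?_⟩
    rw [← e0]
    exact hC y hy

open Pool.Agent.TH942.ES Pool.Agent.V11333.OneSide in
/-- **The sectors.** -/
theorem sectors (a b : 𝓞 K) {ρ ρ' : ℝ} (hρ : 1 < ρ) (hρ' : ρ < ρ') :
    List.TFAE [
      Continues a b (Sector ρ),
      RealContinues a b 0 ∧ Upper a b ρ ρ',
      RealContinuesInv a b 0 ∧ Lower a b ρ ρ'] := by
  have E := curve_sys a b
  have hreal : ∀ x : ℝ, 1 + 0 < x → (x : ℂ) ∈ Sector ρ := fun x hx =>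
    sector_real hρ (by linarith)
  tfae_have 1 → 2 := fun h =>
    ⟨(real_of_cont (sector_open hρ) hreal h).1, (bounds_of_cont a b hρ hρ' h).1⟩
  tfae_have 1 → 3 := fun h =>
    ⟨(real_of_cont (sector_open hρ) hreal h).2, (bounds_of_cont a b hρ hρ' h).2⟩
  tfae_have 2 → 1 := by
    rintro ⟨h1, h2⟩
    obtain ⟨H, h3, h4⟩ := shift_real h1
    refine cont_shift (V := Pool.Agent.TH942.SL.Sect ρ) (fun s hs => (sector_shift ρ s).1 hs)
      (cont_of_upper E hρ hρ' h3 h4 fun ε hε => ?_)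
    obtain ⟨C, hC⟩ := h2 ε hε
    refine ⟨C, hC.mono fun Y hY => ?_⟩
    rw [← mean_eq]
    exact hY
  tfae_have 3 → 1 := by
    rintro ⟨h1, h2⟩
    obtain ⟨H, h3, h4⟩ := shift_real_inv h1
    refine cont_shift (V := Pool.Agent.TH942.SL.Sect ρ) (fun s hs => (sector_shift ρ s).1 hs)
      (cont_of_lower E hρ hρ' h3 h4 fun ε hε => ?_)
    obtain ⟨C, hC⟩ := h2 ε hε
    refine ⟨C, hC.mono fun Y hY => ?_⟩
    rw [← mean_eq]
    exact hY
  tfae_finish

open Pool.Agent.TH942.ES in
/-- the sectors together -/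
theorem glue_sectors {a b : 𝓞 K} (h : ∀ ρ : ℝ, 1 < ρ → Continues a b (Sector ρ)) :
    Continues a b {s | 1 < s.re} := by
  obtain ⟨G, h4, h5⟩ := Pool.Agent.TH942.ES.Sys.glue
    (L := LE (fun v : {v // GoodV a b v} => Pool.Agent.H921R2.TatePole.nm v.1) (alV a b))
    (fun ρ hρ => by
      obtain ⟨G, h7, h8⟩ := h ρ hρ
      refine ⟨fun s => G (s + 1), fun s hs => ?_, fun s hs hs2 => ?_⟩
      · have e : s + 1 ∈ Sector ρ := by rwa [sector_shift, add_sub_cancel_right]
        have h9 := h7 (s + 1) (Or.inl e)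
        exact ⟨h9.1.comp s (by fun_prop), h9.2⟩
      · have e : 3 / 2 < (s + 1).re := by
          rw [Complex.add_re, Complex.one_re]
          linarith
        have h9 := (hasProd_iff a b e _).1 (h8 (s + 1) e)
        rw [add_sub_cancel_right] at h9
        exact h9)
  refine cont_shift (V := {s | 0 < s.re}) (fun s hs => ?_) ⟨G, fun s hs => ?_, h5⟩
  · have : 1 < s.re := hs
    show 0 < (s - 1).re
    rw [Complex.sub_re, Complex.one_re]
    linarith
  · refine h4 s ?_
    rcases hs with hs | hs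
    · exact hs
    · linarith

/-- **Theorem.** Let `K` be a number field, `a, b ∈ 𝓞_K`, `E : y² = x³ + a x + b`.

(1) Let `α ≥ 0`. The following are equivalent: `∫_0^∞ |log P(e^t)| e^{-wt} dt < ∞` for all `w > α`; `L(E, s)` has
an analytic continuation along the real axis to `s > 1 + α` and `∫_0^∞ max (log P(e^t), 0) e^{-wt} dt < ∞` for all
`w > α`; `1/L(E, s)` has one and `∫_0^∞ max (-log P(e^t), 0) e^{-wt} dt < ∞` for all `w > α`. Each implies that
`L(E, s)` has a holomorphic continuation without zeros to `Re s > 1 + α`.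
(2) In particular this continuation exists if `L(E, s)` has an analytic continuation along the real axis to
`s > 1 + α` and `log P(x) ≤ C x^{α + ε}` for every `ε > 0` (some `C`, `x` large), or if `1/L(E, s)` has one and
`log P(x) ≥ -C x^{α + ε}`.
(3) For all `ρ' > ρ > 1`, `L(E, s)` has a holomorphic continuation without zeros to the union of `Re s > 3/2` and
the sector `|arg (s - 1)| < π/(2ρ)` if and only if it has an analytic continuation along the real axis to
`s > 1` and `S_ρ(Y) ≤ C exp(ε (log Y)^ρ)` for every `ε > 0`; and if and only if `1/L(E, s)` has one and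
`S_ρ(Y) ≥ -C exp(ε (log Y)^ρ)` for every `ε > 0`.
(4) `L(E, s)` has a holomorphic continuation without zeros to `Re s > 1` if and only if it has an analytic
continuation along the real axis to `s > 1` and the upper bound of (3) holds for all `ρ > 1` (and one, or all,
`ρ' > ρ`); and the same for `1/L(E, s)` and the lower bound. -/
theorem result (a b : 𝓞 K) :
    (∀ α : ℝ, 0 ≤ α → List.TFAE [
      LaplaceConverges (fun t => logP a b (Real.exp t)) α,
      RealContinues a b α ∧ LaplaceConverges (fun t => max (logP a b (Real.exp t)) 0) α,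
      RealContinuesInv a b α ∧ LaplaceConverges (fun t => max (-logP a b (Real.exp t)) 0) α] ∧
      (LaplaceConverges (fun t => logP a b (Real.exp t)) α →
        Continues a b {s | 1 + α < s.re})) ∧
    (∀ α : ℝ, 0 ≤ α →
      (RealContinues a b α ∧ ∀ ε : ℝ, 0 < ε → ∃ C : ℝ, ∀ᶠ x : ℝ in atTop,
        logP a b x ≤ C * x ^ (α + ε)) ∨
      (RealContinuesInv a b α ∧ ∀ ε : ℝ, 0 < ε → ∃ C : ℝ, ∀ᶠ x : ℝ in atTop,
        -(C * x ^ (α + ε)) ≤ logP a b x) →
      Continues a b {s | 1 + α < s.re}) ∧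
    (∀ ρ ρ' : ℝ, 1 < ρ → ρ < ρ' → List.TFAE [
      Continues a b (Sector ρ),
      RealContinues a b 0 ∧ Upper a b ρ ρ',
      RealContinuesInv a b 0 ∧ Lower a b ρ ρ']) ∧
    List.TFAE [
      Continues a b {s | 1 < s.re},
      RealContinues a b 0 ∧ ∀ ρ : ℝ, 1 < ρ → ∃ ρ' : ℝ, ρ < ρ' ∧ Upper a b ρ ρ',
      RealContinues a b 0 ∧ ∀ ρ ρ' : ℝ, 1 < ρ → ρ < ρ' → Upper a b ρ ρ',
      RealContinuesInv a b 0 ∧ ∀ ρ : ℝ, 1 < ρ → ∃ ρ' : ℝ, ρ < ρ' ∧ Lower a b ρ ρ',
      RealContinuesInv a b 0 ∧ ∀ ρ ρ' : ℝ, 1 < ρ → ρ < ρ' → Lower a b ρ ρ'] := by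
  refine ⟨fun α hα => products a b hα, fun α hα => products_pointwise a b hα,
    fun ρ ρ' hρ hρ' => sectors a b hρ hρ', ?_⟩
  have hs : Continues a b {s | 1 < s.re} → ∀ ρ : ℝ, 1 < ρ → Continues a b (Sector ρ) := by
    rintro ⟨G, h3, h4⟩ ρ hρ
    exact ⟨G, fun s hs => h3 s (hs.imp (fun h => sector_sub hρ h) id), h4⟩
  have hr : ∀ ρ ρ' : ℝ, 1 < ρ → ρ < ρ' → Continues a b (Sector ρ) →
      (RealContinues a b 0 ∧ Upper a b ρ ρ') ∧ (RealContinuesInv a b 0 ∧ Lower a b ρ ρ') :=
    fun ρ ρ' hρ hρ' h => ⟨((sectors a b hρ hρ').out 0 1).1 h, ((sectors a b hρ hρ').out 0 2).1 h⟩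
  tfae_have 1 → 3 := fun h => ⟨(hr 2 3 one_lt_two (by norm_num) (hs h 2 one_lt_two)).1.1,
    fun ρ ρ' hρ hρ' => (hr ρ ρ' hρ hρ' (hs h ρ hρ)).1.2⟩
  tfae_have 1 → 5 := fun h => ⟨(hr 2 3 one_lt_two (by norm_num) (hs h 2 one_lt_two)).2.1,
    fun ρ ρ' hρ hρ' => (hr ρ ρ' hρ hρ' (hs h ρ hρ)).2.2⟩
  tfae_have 3 → 2 := fun h => ⟨h.1, fun ρ hρ => ⟨ρ + 1, lt_add_one ρ, h.2 ρ _ hρ (lt_add_one ρ)⟩⟩
  tfae_have 5 → 4 := fun h => ⟨h.1, fun ρ hρ => ⟨ρ + 1, lt_add_one ρ, h.2 ρ _ hρ (lt_add_one ρ)⟩⟩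
  tfae_have 2 → 1 := by
    rintro ⟨h1, h2⟩
    refine glue_sectors fun ρ hρ => ?_
    obtain ⟨ρ', hρ', h3⟩ := h2 ρ hρ
    have h4 : RealContinues a b 0 ∧ Upper a b ρ ρ' := ⟨h1, h3⟩
    exact ((sectors a b hρ hρ').out 1 0).1 h4
  tfae_have 4 → 1 := by
    rintro ⟨h1, h2⟩
    refine glue_sectors fun ρ hρ => ?_
    obtain ⟨ρ', hρ', h3⟩ := h2 ρ hρ
    have h4 : RealContinuesInv a b 0 ∧ Lower a b ρ ρ' := ⟨h1, h3⟩
    exact ((sectors a b hρ hρ').out 2 0).1 h4
  tfae_finish

end Pool.Agent.Results.MP_bf61d2_nt.OneSidedContinuation
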