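import Pool.Agent.V11217.NWK

/-!
# Zero-free continuations of L(E/K, s) and the logarithms of its values at the integers

Let `E : y² = x³ + a x + b`, `a, b ∈ 𝓞_K`, be an elliptic curve over a number field `K`. For the primes `v` which
do not divide `6 (4 a³ + 27 b²)` let `N v` be the norm and `N_v + 1` the number of points modulo `v`, and let
`L(s) = ∏ (1 - (N v - N_v) N v^{-s} + N v^{1 - 2s})⁻¹`, `Re s > 3/2`, be the product over these `v`; it is
`L(E/K, s)` up to finitely many Euler factors, which have no zeros and poles in `Re s > 1/2`. For general `K`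
no continuation is known, and nothing is assumed about it here, nor about modularity.

The values `L(2), L(3), L(4), …` are positive real numbers. For `h, n ≥ 1` let

`Δ(h, n) = ∑_{k ≤ n} (-1)^k (n choose k) log L(2 + h k)`

be the `n`-th difference with step `h` of their logarithms at the point `2`. It is a linear quantity in the
traces of Frobenius: `Δ(h, n) = ∑_v ∑_{k ≥ 1} (N v^k + 1 - #E(𝔽_{v,k})) / (k N v^{2k}) (1 - N v^{-hk})^n`.

It is shown:

1. For every `c ≥ 1/2`, `L` has a holomorphic continuation `G` WITHOUT ZEROS to the half plane `Re s > 2 - c`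
   which is of finite order there (`log |G(s)| ≤ B (1 + |s|)^κ` in `Re s ≥ 2 - α` for every `α < c`), IF AND ONLY
   IF for every `0 < α < c` there are `C, κ` with `|Δ(h, n)| ≤ C h^κ n^{-α/h}` for all `h, n ≥ 1`.
2. One step suffices for the existence: if `∑_{k ≤ n} (-1)^k (n choose k) log L(2 + k) = O(n^{-α})` for all
   `α < c`, then `L` has a holomorphic continuation without zeros to the half plane `Re s > 2 - c`.

For `c = 1` this is the half plane `Re s > 1`, where `L(E/K, s)` is expected to be holomorphic and without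
zeros. The trivial bound is `|Δ(h, n)| ≤ C n^{-α/h}` for `α < 1/2`.

Proof. `log L(2 + w)` is an absolutely convergent general Dirichlet series for `Re w ≥ -1/4`. If the differences
are small, Newton's interpolation series with step `h` converge in the larger half plane, where they all agree,
and those with `h ∼ |w|` give the growth. Conversely the logarithm of the continuation has polynomial growth by
the theorem of Borel and Carathéodory, and the differences are the integrals of Nörlund and Rice,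
`2π Δ(h, n) = ∫ log L(2 - h s) B(s, n + 1)` over the line `Re s = α/h`, with the beta function `B`.
-/

set_option autoImplicit false

namespace Pool.Agent.Results.MP_bf61d2_nt.ValuesAtIntegers

open Filter Topology NumberField IsDedekindDomain

variable {K : Type} [Field K] [NumberField K]

/-- The norm of `v`. -/
noncomputable def nrm (v : HeightOneSpectrum (𝓞 K)) : ℕ := Ideal.absNorm v.asIdeal

/-- `v` does not divide `6 (4 a³ + 27 b²)`. -/
def Good (a b : 𝓞 K) (v : HeightOneSpectrum (𝓞 K)) : Prop :=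
  6 * (4 * a ^ 3 + 27 * b ^ 2) ∉ v.asIdeal

/-- The number of affine points of `y² = x³ + a x + b` modulo `v`. -/
noncomputable def pts (a b : 𝓞 K) (v : HeightOneSpectrum (𝓞 K)) : ℕ :=
  Nat.card {P : (𝓞 K ⧸ v.asIdeal) × (𝓞 K ⧸ v.asIdeal) //
    P.2 ^ 2 = P.1 ^ 3 + Ideal.Quotient.mk v.asIdeal a * P.1 + Ideal.Quotient.mk v.asIdeal b}

/-- The Euler factor `(1 - a_v (N v)^{-s} + (N v)^{1 - 2s})⁻¹`, `a_v = N v - N_v`. -/
noncomputable def factor (a b : 𝓞 K) (v : HeightOneSpectrum (𝓞 K)) (s : ℂ) : ℂ :=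
  (1 - ((nrm v : ℂ) - pts a b v) * (nrm v : ℂ) ^ (-s) + (nrm v : ℂ) ^ (1 - 2 * s))⁻¹

/-- The Euler product `L(s)` over the good primes. -/
noncomputable def euler (a b : 𝓞 K) (s : ℂ) : ℂ := ∏' v : {v // Good a b v}, factor a b v.1 s

/-- The `n`-th difference with step `h` of the real numbers `log L(2), log L(2 + h), log L(2 + 2 h), …`. -/
noncomputable def difference (a b : 𝓞 K) (h n : ℕ) : ℝ :=
  ∑ k ∈ Finset.range (n + 1), (-1 : ℝ) ^ k * (n.choose k : ℝ) * Real.log (euler a b (2 + h * k)).re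

/-- The bound `C h^κ n^{-α/h}` for the differences, for all steps `h` and all orders `n`. -/
def SmallDifferences (a b : 𝓞 K) (α : ℝ) : Prop :=
  ∃ (C : ℝ) (κ : ℕ), ∀ h n : ℕ, 1 ≤ h → 1 ≤ n →
    |difference a b h n| ≤ C * (h : ℝ) ^ κ * (n : ℝ) ^ (-(α / h))

/-- `G` is a holomorphic continuation of `L(s)`, `Re s > 3/2`, without zeros, to `Re s > 2 - c`. -/
def IsContinuation (a b : 𝓞 K) (c : ℝ) (G : ℂ → ℂ) : Prop :=
  (∀ s : ℂ, 2 - c < s.re → DifferentiableAt ℂ G s ∧ G s ≠ 0) ∧ ∀ s : ℂ, 3 / 2 < s.re → G s = euler a b s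

/-- `G` is of finite order in `Re s ≥ 2 - α` for every `α < c`. -/
def FiniteOrder (c : ℝ) (G : ℂ → ℂ) : Prop :=
  ∀ α : ℝ, α < c → ∃ (B : ℝ) (κ : ℕ), ∀ s : ℂ, 2 - α ≤ s.re → ‖G s‖ ≤ Real.exp (B * (1 + ‖s‖) ^ κ)

open Pool.Agent.V11217.NW
open Pool.Agent.TH942.ES (GoodV alV curve_sys)
open Pool.Agent.H921R2.TatePole (nm)

theorem euler_eq (a b : 𝓞 K) (s : ℂ) : euler a b s =
    Pool.Agent.TH942.ES.LE (fun v : {v // GoodV a b v} => nm v.1) (alV a b) (s - 1) := by
  unfold euler Pool.Agent.TH942.ES.LE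
  refine tprod_congr fun v => ?_
  have h := Pool.Agent.TH942.ES.curve_factor (a := a) (b := b) v (s - 1)
  rw [add_sub_cancel] at h
  exact h.symm

/-- the logarithm at `2 + w` -/
noncomputable def Fl (a b : 𝓞 K) : ℂ → ℂ :=
  Fg (fun v : {v // GoodV a b v} => nm v.1) (alV a b)

theorem exp_Fl (a b : 𝓞 K) {w : ℂ} (hw : -(1 / 2) < w.re) : Complex.exp (Fl a b w) = euler a b (2 + w) := by
  rw [euler_eq]
  have e1 : 2 + w - 1 = 1 + w := by ring
  rw [e1]
  exact exp_Fg (curve_sys a b) (real_pow a b) hw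

theorem diff_eq (a b : 𝓞 K) (h n : ℕ) : D (Fl a b) h n = ((difference a b h n : ℝ) : ℂ) := by
  unfold D difference
  push_cast
  refine Finset.sum_congr rfl fun k _ => ?_
  have h1 := (curve_log a b (h * k)).2.2
  rw [euler_eq]
  have e1 : (2 : ℂ) + h * k - 1 = 1 + ((h * k : ℕ) : ℂ) := by
    push_cast
    ring
  rw [e1, ← Nat.cast_mul]
  unfold Fl
  rw [h1]

theorem small_iff (a b : 𝓞 K) (α : ℝ) :
    SmallDifferences a b α ↔ ∃ (C : ℝ) (κ : ℕ), DB (Fl a b) α C κ := by
  unfold SmallDifferences DB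
  simp only [diff_eq, Complex.norm_real, Real.norm_eq_abs]

/-- two continuations which agree for `Re s > 2` agree for `Re s > 3/2` -/
theorem agree {G L : ℂ → ℂ} {c : ℝ} (hc : 1 / 2 ≤ c) (hG : ∀ s : ℂ, 2 - c < s.re → DifferentiableAt ℂ G s)
    (hL : ∀ s : ℂ, 3 / 2 < s.re → DifferentiableAt ℂ L s) (h : ∀ s : ℂ, 2 < s.re → G s = L s) :
    ∀ s : ℂ, 3 / 2 < s.re → G s = L s := by
  have hU : IsOpen {z : ℂ | 3 / 2 < z.re} := isOpen_lt continuous_const Complex.continuous_re
  have hpre : IsPreconnected {z : ℂ | 3 / 2 < z.re} := (convex_halfSpace_re_gt (3 / 2)).isPreconnected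
  have hA1 : AnalyticOnNhd ℂ G {z : ℂ | 3 / 2 < z.re} :=
    DifferentiableOn.analyticOnNhd (fun z hz => (hG z (by
      have : 3 / 2 < z.re := hz
      linarith)).differentiableWithinAt) hU
  have hA2 : AnalyticOnNhd ℂ L {z : ℂ | 3 / 2 < z.re} :=
    DifferentiableOn.analyticOnNhd (fun z hz => (hL z hz).differentiableWithinAt) hU
  have hev : G =ᶠ[𝓝 (3 : ℂ)] L := by
    have : {z : ℂ | 2 < z.re} ∈ 𝓝 (3 : ℂ) :=
      (isOpen_lt continuous_const Complex.continuous_re).mem_nhds (by simp; norm_num)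
    filter_upwards [this] with z hz
    exact h z hz
  exact fun s hs => hA1.eqOn_of_preconnected_of_eventuallyEq hA2 hpre
    (z₀ := 3) (by simp) hev hs

theorem euler_diff (a b : 𝓞 K) {s : ℂ} (hs : 3 / 2 < s.re) : DifferentiableAt ℂ (euler a b) s := by
  have h := Lw_diff a b ∅ (β := fun _ _ => 0) (by simp) hs
  have e : euler a b = Lw a b ∅ (fun _ _ => 0) := by
    funext s
    rw [euler_eq]
    unfold Lw
    simp
  rw [e]
  exact h

theorem growth {G : ℂ → ℂ} {B : ℝ} {κ : ℕ} {σ : ℝ} {z : ℂ} (hz : ‖z‖ ≤ 2)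
    (h : ∀ s : ℂ, σ ≤ s.re → ‖G s‖ ≤ Real.exp (B * (1 + ‖s‖) ^ κ)) :
    ∀ s : ℂ, σ ≤ (s + z).re → ‖G (s + z)‖ ≤ Real.exp (|B| * 3 ^ κ * (1 + ‖s‖) ^ κ) := by
  intro s hs
  refine (h _ hs).trans (Real.exp_le_exp.2 ?_)
  have h5 : 1 + ‖s + z‖ ≤ 3 * (1 + ‖s‖) := by
    have := norm_add_le s z
    have := norm_nonneg s
    linarith
  calc B * (1 + ‖s + z‖) ^ κ ≤ |B| * (3 * (1 + ‖s‖)) ^ κ :=
        mul_le_mul (le_abs_self B) (pow_le_pow_left₀ (by positivity) h5 _) (by positivity)
          (abs_nonneg _)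
    _ = _ := by rw [mul_pow]; ring

theorem cont_iff (a b : 𝓞 K) {c : ℝ} (hc : 1 / 2 ≤ c) :
    (∃ G : ℂ → ℂ, IsContinuation a b c G ∧ FiniteOrder c G) ↔
      ∃ G : ℂ → ℂ, FreeContinuation (Fl a b) c G := by
  constructor
  · rintro ⟨G, ⟨h1, h2⟩, h3⟩
    have hre : ∀ w : ℂ, (w + 2).re = w.re + 2 := fun w => by simp
    refine ⟨fun w => G (w + 2), fun w hw => ?_, fun w hw => ?_, fun w hw => ?_, fun α hα => ?_⟩
    · have h4 : DifferentiableAt ℂ G (w + 2) := (h1 _ (by rw [hre]; linarith)).1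
      exact DifferentiableAt.comp (f := fun w : ℂ => w + 2) w h4 (by fun_prop)
    · exact (h1 _ (by rw [hre]; linarith)).2
    · rw [exp_Fl a b (by linarith), add_comm 2 w]
      exact h2 _ (by rw [hre]; linarith)
    · obtain ⟨B, κ, h4⟩ := h3 α hα
      exact ⟨_, κ, fun w hw => growth (z := 2) (by simp) h4 w (by rw [hre]; linarith)⟩
  · rintro ⟨G, h1, h2, h3, h4⟩
    have hre : ∀ s : ℂ, (s + -2).re = s.re - 2 := fun s => by simp; ring
    have h0 : ∀ s : ℂ, 2 - c < s.re → DifferentiableAt ℂ (fun s => G (s + -2)) s := by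
      intro s hs
      have h4 : DifferentiableAt ℂ G (s + -2) := h1 _ (by rw [hre]; linarith)
      exact DifferentiableAt.comp (f := fun s : ℂ => s + -2) s h4 (by fun_prop)
    refine ⟨fun s => G (s + -2), ⟨fun s hs => ⟨h0 s hs, h2 _ (by rw [hre]; linarith)⟩, ?_⟩, fun α hα => ?_⟩
    · refine agree hc h0 (fun s hs => euler_diff a b hs) fun s hs => ?_
      rw [h3 (s + -2) (by rw [hre]; linarith), exp_Fl a b (by rw [hre]; linarith)]
      congr 1
      ring
    · obtain ⟨B, κ, h5⟩ := h4 α hα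
      exact ⟨_, κ, fun s hs => growth (z := -2) (by simp) h5 s (by rw [hre]; linarith)⟩

/-- **Theorem.** Let `K` be a number field, `a, b ∈ 𝓞_K`, and let `L` be the Euler product of
`E : y² = x³ + a x + b` over the primes not dividing `6 (4 a³ + 27 b²)`.

(1) The values `L(2), L(3), …` are positive real numbers.

(2) For every `c ≥ 1/2`, `L` has a holomorphic continuation without zeros to `Re s > 2 - c`, of finite order in
`Re s ≥ 2 - α` for all `α < c`, if and only if for all `0 < α < c` the differences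
`∑_{k ≤ n} (-1)^k (n choose k) log L(2 + h k)` are `O(h^κ n^{-α/h})` for some `κ`, uniformly in `h, n ≥ 1`.

(3) If `∑_{k ≤ n} (-1)^k (n choose k) log L(2 + k) = O(n^{-α})` for all `0 < α < c`, `c ≥ 1/2`, then `L` has a
holomorphic continuation without zeros to `Re s > 2 - c`. -/
theorem result (a b : 𝓞 K) :
    (∀ m : ℕ, 2 ≤ m → 0 < (euler a b m).re ∧ (euler a b m).im = 0) ∧
    (∀ c : ℝ, 1 / 2 ≤ c → ((∃ G : ℂ → ℂ, IsContinuation a b c G ∧ FiniteOrder c G) ↔
      ∀ α : ℝ, 0 < α → α < c → SmallDifferences a b α)) ∧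
    (∀ c : ℝ, 1 / 2 ≤ c →
      (∀ α : ℝ, 0 < α → α < c → ∃ C : ℝ, ∀ n : ℕ, 1 ≤ n → |difference a b 1 n| ≤ C * (n : ℝ) ^ (-α)) →
      ∃ G : ℂ → ℂ, IsContinuation a b c G) := by
  have E := curve_sys a b
  have := E.cnt
  have R : Rep (1 / 4) (Fl a b) _ _ := Fg_rep E
  refine ⟨fun m hm => ?_, fun c hc => ?_, fun c hc H => ?_⟩
  · obtain ⟨j, rfl⟩ := Nat.exists_eq_add_of_le hm
    have h := curve_log a b j
    have e1 : ((2 + j : ℕ) : ℂ) - 1 = 1 + (j : ℂ) := by
      push_cast
      ring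
    rw [euler_eq, e1]
    exact ⟨h.1, h.2.1⟩
  · rw [cont_iff a b hc]
    simp only [small_iff]
    exact free_criterion (R.mono (by norm_num : (1 / 8 : ℝ) ≤ 1 / 4)) (by norm_num) (ε₁ := 1 / 4)
      (by norm_num) (fun w hw => R.diff hw) (by linarith)
  · have hre : ∀ s : ℂ, (s + -2).re = s.re - 2 := fun s => by simp; ring
    have h2 := one_step_free R (by norm_num) (c₀ := c) (by linarith) (fun α h1 h2 => by
      obtain ⟨C, hC⟩ := H α h1 h2
      exact ⟨C, fun n hn => by
        rw [diff_eq, Complex.norm_real, Real.norm_eq_abs]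
        exact hC n hn⟩)
    have h0 : ∀ s : ℂ, 2 - c < s.re →
        DifferentiableAt ℂ (fun s => Complex.exp (G (Fl a b) 1 (s + -2))) s := by
      intro s hs
      have h4 : DifferentiableAt ℂ (G (Fl a b) 1) (s + -2) := h2.1 _ (by rw [hre]; linarith)
      exact (DifferentiableAt.comp (f := fun s : ℂ => s + -2) s h4 (by fun_prop)).cexp
    refine ⟨fun s => Complex.exp (G (Fl a b) 1 (s + -2)), fun s hs => ⟨h0 s hs, Complex.exp_ne_zero _⟩, ?_⟩
    refine agree hc h0 (fun s hs => euler_diff a b hs) fun s hs => ?_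
    rw [h2.2 (s + -2) (by rw [hre]; linarith), exp_Fl a b (by rw [hre]; linarith)]
    congr 1
    ring

end Pool.Agent.Results.MP_bf61d2_nt.ValuesAtIntegers
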